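import Pool.Agent.Q269.GT.Stm

set_option autoImplicit false
set_option linter.all false

open scoped Classical
open Polynomial Module

namespace Pool.Agent.Q65.GT

open Pool.Agent.Q269.GT
open Pool.Agent.Y164.HG

theorem t_ROOT : S_ROOT := by
  intro k E _ _ _ _ _ P hP hd
  haveI : Fact (Irreducible P) := ⟨hP⟩
  haveI : Module.Finite k (AdjoinRoot P) := (AdjoinRoot.powerBasis hP.ne_zero).finite
  haveI : Finite (AdjoinRoot P) := Module.finite_of_finite k
  haveI : Module.Finite k E := inferInstance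
  have hfr : finrank k (AdjoinRoot P) = P.natDegree := by
    rw [(AdjoinRoot.powerBasis hP.ne_zero).finrank, AdjoinRoot.powerBasis_dim]
  obtain ⟨f⟩ := FiniteField.nonempty_algHom_of_finrank_dvd (F := k) (K := AdjoinRoot P) (L := E)
    (by rw [hfr]; exact hd)
  refine ⟨f (AdjoinRoot.root P), ?_⟩
  rw [aeval_algHom_apply, AdjoinRoot.aeval_eq, AdjoinRoot.mk_self, map_zero]

theorem t_IRR : S_IRR := by
  intro k E _ _ _ _ _ R hR hc
  haveI : Module.Finite k E := inferInstance
  set Rm := R.map (algebraMap k E) with hRm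
  have hd : Rm.natDegree = R.natDegree := natDegree_map _
  have hne : Rm ≠ 0 := by
    rw [hRm, Ne, Polynomial.map_eq_zero]; exact hR.ne_zero
  have hnu : ¬ IsUnit Rm := by
    intro h
    have h1 := natDegree_eq_zero_of_isUnit h
    rw [hd] at h1
    exact absurd h1 hR.natDegree_pos.ne'
  obtain ⟨g, hg, hgR⟩ := WfDvdMonoid.exists_irreducible_factor hnu hne
  haveI : Fact (Irreducible g) := ⟨hg⟩
  haveI : Module.Finite E (AdjoinRoot g) := (AdjoinRoot.powerBasis hg.ne_zero).finite
  haveI : Module.Finite k (AdjoinRoot g) := Module.Finite.trans E _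
  have hfr : finrank E (AdjoinRoot g) = g.natDegree := by
    rw [(AdjoinRoot.powerBasis hg.ne_zero).finrank, AdjoinRoot.powerBasis_dim]
  have h0 : aeval (AdjoinRoot.root g) R = 0 := by
    obtain ⟨h, hh⟩ := hgR
    have h1 : aeval (AdjoinRoot.root g) Rm = 0 := by
      rw [hh, map_mul, AdjoinRoot.aeval_eq, AdjoinRoot.mk_self, zero_mul]
    rwa [hRm, aeval_map_algebraMap] at h1
  have hmin : (minpoly k (AdjoinRoot.root g)).natDegree = R.natDegree := by
    have hint : IsIntegral k (AdjoinRoot.root g) := IsIntegral.of_finite k _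
    have h2 := minpoly.dvd k (AdjoinRoot.root g) h0
    have h3 := (minpoly.irreducible hint).associated_of_dvd hR h2
    exact natDegree_eq_of_degree_eq (degree_eq_degree_of_associated h3)
  have h4 : R.natDegree ∣ finrank k (AdjoinRoot g) := by
    rw [← hmin]; exact minpoly.degree_dvd (IsIntegral.of_finite k _)
  have h5 : finrank k (AdjoinRoot g) = finrank k E * g.natDegree := by
    rw [← hfr, finrank_mul_finrank]
  rw [h5] at h4
  have h6 : R.natDegree ∣ g.natDegree := hc.dvd_of_dvd_mul_left h4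
  have h7 : R.natDegree ≤ g.natDegree := Nat.le_of_dvd hg.natDegree_pos h6
  obtain ⟨h, hh⟩ := hgR
  have hh0 : h ≠ 0 := by rintro rfl; rw [mul_zero] at hh; exact hne hh
  have h8 : Rm.natDegree = g.natDegree + h.natDegree := by
    rw [hh, natDegree_mul hg.ne_zero hh0]
  have h9 : h.natDegree = 0 := by omega
  have h10 : IsUnit h := by
    rw [eq_C_of_natDegree_eq_zero h9]
    apply IsUnit.map
    rw [isUnit_iff_ne_zero]
    intro h11
    apply hh0
    rw [eq_C_of_natDegree_eq_zero h9, h11, C_0]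
  rw [hh]
  exact (irreducible_mul_isUnit h10).mpr hg

theorem pow_q_inj (k E : Type) [Field k] [Finite k] [Field E] [Algebra k E] (i : ℕ) :
    Function.Injective (fun x : E => x ^ (Nat.card k ^ i)) := by
  obtain ⟨p, hp⟩ := CharP.exists k
  haveI : Fact p.Prime := ⟨CharP.char_is_prime k p⟩
  haveI := Fintype.ofFinite k
  obtain ⟨n, hpr, hn⟩ := FiniteField.card k p
  haveI : CharP E p := (Algebra.charP_iff k E p).mp hp
  haveI : ExpChar E p := ExpChar.prime Fact.out
  intro x y hxy
  have h1 : Nat.card k ^ i = p ^ ((n : ℕ) * i) := by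
    rw [Nat.card_eq_fintype_card, hn, pow_mul]
  apply (iterateFrobenius E p ((n : ℕ) * i)).injective
  rw [iterateFrobenius_def, iterateFrobenius_def, ← h1]
  exact hxy

theorem pow_fix (k E : Type) [Field k] [Finite k] [Field E] [Finite E] [Algebra k E] (P : k[X])
    (θ : E) (hP : Irreducible P) (h0 : aeval θ P = 0) (i : ℕ) :
    θ ^ (Nat.card k ^ i) = θ ↔ P.natDegree ∣ i := by
  rw [hP.natDegree_dvd_iff_dvd_X_pow_card_pow_sub_X]
  constructor
  · intro h
    have hint : IsIntegral k θ := IsIntegral.of_finite k _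
    have h1 : P ∣ minpoly k θ :=
      (minpoly.irreducible hint).dvd_symm hP (minpoly.dvd k θ h0)
    refine h1.trans (minpoly.dvd k θ ?_)
    rw [map_sub, map_pow, aeval_X, h, sub_self]
  · rintro ⟨Q, hQ⟩
    have h1 : aeval θ (X ^ (Nat.card k) ^ i - X : k[X]) = 0 := by
      rw [hQ, map_mul, h0, zero_mul]
    rw [map_sub, map_pow, aeval_X] at h1
    exact sub_eq_zero.mp h1

theorem per_aux (k E : Type) [Field k] [Finite k] [Field E] [Finite E] [Algebra k E] (P : k[X])
    (θ : E) (hP : Irreducible P) (h0 : aeval θ P = 0) (i j : ℕ) (hij : i ≤ j) :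
    θ ^ (Nat.card k ^ i) = θ ^ (Nat.card k ^ j) ↔ i ≡ j [MOD P.natDegree] := by
  rw [Nat.modEq_iff_dvd' hij, ← pow_fix k E P θ hP h0 (j - i)]
  have h1 : θ ^ (Nat.card k ^ j) = (θ ^ (Nat.card k ^ (j - i))) ^ (Nat.card k ^ i) := by
    rw [← pow_mul, ← pow_add]; congr 2; omega
  rw [h1]
  constructor
  · intro h
    exact (pow_q_inj k E i h).symm
  · intro h
    rw [h]

theorem t_SPL : S_SPL := by
  intro k E _ _ _ _ _ P θ hm hP h0
  have hper : ∀ i j : ℕ, θ ^ (Nat.card k ^ i) = θ ^ (Nat.card k ^ j) ↔ i ≡ j [MOD P.natDegree] := by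
    intro i j
    rcases le_total i j with h | h
    · exact per_aux k E P θ hP h0 i j h
    · rw [eq_comm, Nat.ModEq.comm]
      exact per_aux k E P θ hP h0 j i h
  refine ⟨?_, hper⟩
  have hroot : ∀ i : ℕ, aeval (θ ^ (Nat.card k ^ i)) P = 0 := by
    intro i
    haveI := Fintype.ofFinite k
    have h1 : ∀ x : k, x ^ (Nat.card k ^ i) = x := by
      intro x
      rw [Nat.card_eq_fintype_card]
      exact FiniteField.pow_card_pow i x
    obtain ⟨p, hp⟩ := CharP.exists k
    haveI : Fact p.Prime := ⟨CharP.char_is_prime k p⟩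
    obtain ⟨n, hpr, hn⟩ := FiniteField.card k p
    haveI : CharP E p := (Algebra.charP_iff k E p).mp hp
    haveI : ExpChar E p := ExpChar.prime Fact.out
    have h2 : Nat.card k ^ i = p ^ ((n : ℕ) * i) := by
      rw [Nat.card_eq_fintype_card, hn, pow_mul]
    have h3 : aeval (θ ^ (Nat.card k ^ i)) P = (aeval θ P) ^ (Nat.card k ^ i) := by
      have h4 : (aeval θ P) ^ (Nat.card k ^ i) = iterateFrobenius E p ((n : ℕ) * i) (aeval θ P) := by
        rw [iterateFrobenius_def, h2]
      rw [h4, aeval_def, aeval_def, hom_eval₂]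
      have h5 : (iterateFrobenius E p ((n : ℕ) * i)).comp (algebraMap k E) = algebraMap k E := by
        ext x
        rw [RingHom.comp_apply, iterateFrobenius_def, ← map_pow, ← h2, h1]
      rw [h5, iterateFrobenius_def, h2]
    rw [h3, h0, zero_pow]
    exact pow_ne_zero _ (Nat.card_pos (α := k)).ne'
  have hdvd : (∏ i ∈ Finset.range P.natDegree, (X - C (θ ^ (Nat.card k ^ i)))) ∣
      P.map (algebraMap k E) := by
    apply Finset.prod_dvd_of_coprime
    · intro i hi j hj hij
      show IsCoprime (X - C (θ ^ (Nat.card k ^ i))) (X - C (θ ^ (Nat.card k ^ j)))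
      apply isCoprime_X_sub_C_of_isUnit_sub
      rw [isUnit_iff_ne_zero, sub_ne_zero]
      intro h
      rw [hper] at h
      rw [Finset.mem_coe, Finset.mem_range] at hi hj
      exact hij (h.eq_of_lt_of_lt hi hj)
    · intro i _
      rw [dvd_iff_isRoot, IsRoot, eval_map_algebraMap]
      exact hroot i
  have hmon : (∏ i ∈ Finset.range P.natDegree, (X - C (θ ^ (Nat.card k ^ i)))).Monic :=
    monic_prod_of_monic _ _ fun i _ => monic_X_sub_C _
  refine (eq_of_monic_of_dvd_of_natDegree_le hmon (hm.map _) hdvd ?_)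
  rw [natDegree_prod_of_monic _ _ fun i _ => monic_X_sub_C _, natDegree_map,
    Finset.sum_congr rfl fun i _ => natDegree_X_sub_C _]
  simp

end Pool.Agent.Q65.GT
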