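import Pool.Agent.Q269.GT.Stm

set_option autoImplicit false
set_option linter.all false

open scoped Classical
open Polynomial Module

namespace Pool.Agent.Q65.GT

open Pool.Agent.Q269.GT
open Pool.Agent.Y164.HG

theorem t_EVN : S_EVN := by
  intro W τ ι _ _ _ _ _ D hG hsp he hks hN hodd
  set d : ι → F2 := fun _ => 1 with hd
  set Pf : V W ι τ → V W ι τ → F2 := fun w w' =>
    ∑ s, w.2 s * w'.2 s + ∑ i, om (w.1 i) (w'.1 i) with hPf
  have hFF : ∀ w w' : V W ι τ, FF D (fun _ _ => 0) (fun _ _ => 0) d w w' = Pf w w' := by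
    intro w w'
    simp only [FF, hG, hsp, hks, hd, zero_mul, one_mul, Finset.sum_const_zero, zero_add, hPf]
  have hPs : ∀ w w' : V W ι τ, Pf w w' = Pf w' w := by
    intro w w'
    simp only [hPf]
    congr 1
    · exact Finset.sum_congr rfl fun s _ => mul_comm _ _
    · exact Finset.sum_congr rfl fun s _ => om_comm _ _
  have hPa : ∀ w v v' : V W ι τ, Pf w (v + v') = Pf w v + Pf w v' := by
    intro w v v'
    simp only [hPf, Prod.fst_add, Prod.snd_add, Pi.add_apply, mul_add, om_add_right,
      Finset.sum_add_distrib]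
    ring
  have hTT : ∀ (y : W) (w : V W ι τ), Pf (TT D y) w = om y (dg D d w) := by
    intro y w
    simp only [hPf, TT, dg, hd, he, one_smul, one_mul, om_add_right, om_sum_right, om_smul_right]
    rw [add_comm]
    congr 1
    exact Finset.sum_congr rfl fun s _ => mul_comm _ _
  have hcard : (∑ i : ι, d i + D.N) = 1 := by
    rw [hN, add_zero]
    simp only [hd, Finset.sum_const, Finset.card_univ, nsmul_eq_mul, mul_one]
    obtain ⟨r, hr⟩ := hodd
    rw [hr]
    have h2 : ((2 * r + 1 : ℕ) : F2) = 1 := by
      rw [ZMod.natCast_eq_iff]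
      · exact ⟨r, by rw [ZMod.val_one]; ring⟩
    exact h2
  have hdT : ∀ y : W, dg D d (TT D y) = y := fun y => by rw [dg_TT, hcard, one_smul]
  intro w hw hk
  have hz : ∀ v : V W ι τ, Pf w v = 0 := by
    intro v
    have h1 : dg D d (v + TT D (dg D d v)) = 0 := by
      rw [dg_add, hdT, W_add_self]
    have h2 := hk _ h1
    rw [hFF, hPa, hPs w (TT D _), hTT, hw, om_zero_right, add_zero] at h2
    exact h2
  apply Prod.ext
  · funext i
    apply eq_zero_of_om
    intro y
    have h := hz (Pi.single i y, 0)
    simp only [hPf, Pi.zero_apply, mul_zero, Finset.sum_const_zero, zero_add] at h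
    rw [Finset.sum_eq_single i, Pi.single_eq_same] at h
    · exact h
    · intro j _ hj
      rw [Pi.single_eq_of_ne hj, om_zero_right]
    · intro hi
      exact absurd (Finset.mem_univ i) hi
  · funext s
    have h := hz (0, Pi.single s 1)
    simp only [hPf, Pi.zero_apply, om_zero_right, Finset.sum_const_zero, add_zero] at h
    rw [Finset.sum_eq_single s, Pi.single_eq_same, mul_one] at h
    · exact h
    · intro j _ hj
      rw [Pi.single_eq_of_ne hj, mul_zero]
    · intro hi
      exact absurd (Finset.mem_univ s) hi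

theorem t_RLB : S_RLB := by
  intro W τ τ' ι ι' _ _ _ _ _ _ _ D D' ε φ A B d A' B' d' ht hG he hsp hks hA hB hd hT
  set T : V W ι τ → V W ι' τ' := fun w => (fun i => w.1 (φ i), fun s => w.2 (ε s)) with hTd
  have hdg : ∀ w, dg D' d' (T w) = dg D d w := by
    intro w
    simp only [dg, hTd, ht, he, hd]
    congr 1
    · exact Equiv.sum_comp φ (fun i => d i • w.1 i)
    · exact Equiv.sum_comp ε (fun s => (D.e s * w.2 s) • D.t s)
  have hFF : ∀ w w', FF D' A' B' d' (T w) (T w') = FF D A B d w w' := by
    intro w w'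
    simp only [FF, hTd, ht, hG, hsp, hks, hA, hB, hd]
    congr 1
    · congr 1
      · congr 1
        · congr 1
          · rw [← Equiv.sum_comp φ]
            refine Finset.sum_congr rfl fun i _ => ?_
            rw [← Equiv.sum_comp φ]
          · rw [← Equiv.sum_comp φ]
            refine Finset.sum_congr rfl fun i _ => ?_
            rw [← Equiv.sum_comp ε]
        · rw [← Equiv.sum_comp ε]
          refine Finset.sum_congr rfl fun i _ => ?_
          rw [← Equiv.sum_comp ε]
      · rw [← Equiv.sum_comp ε]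
    · rw [← Equiv.sum_comp φ]
  have hsurj : ∀ w', ∃ w, T w = w' := by
    intro w'
    refine ⟨(fun i => w'.1 (φ.symm i), fun s => w'.2 (ε.symm s)), ?_⟩
    simp only [hTd, Equiv.symm_apply_apply]
  intro w' hw' hk
  obtain ⟨w, rfl⟩ := hsurj w'
  have h0 : w = 0 := by
    apply hT w
    · rw [← hdg]; exact hw'
    · intro w2 hw2
      rw [← hFF]
      apply hk
      rw [hdg]; exact hw2
  rw [h0]
  rfl

end Pool.Agent.Q65.GT
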